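import Pool.Agent.H41.NF.Cnt

/-!
# NF, rows NRO, NSU, NFI: integral degrees
-/

set_option autoImplicit false

namespace Pool.NF

open Polynomial Matrix Pool.HYP Pool.T1 IsDedekindDomain NumberField

namespace H22

theorem bx_mono {K : Type} [Field K] [NumberField K] {ρ ρ' : ℝ} (h : ρ ≤ ρ') {a : 𝓞 K}
    (ha : a ∈ Bx K ρ) : a ∈ Bx K ρ' := fun σ => (ha σ).trans h

theorem adn_box {C : ℝ} {e : Fin 3 → ℤ} (hA : Adn C (fun i => (e i : ℝ))) :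
    -⌈2 * C⌉ ≤ e 1 ∧ e 1 ≤ ⌈2 * C⌉ ∧ -⌈2 * C⌉ ≤ e 2 + e 0 ∧ e 2 + e 0 ≤ ⌈2 * C⌉ ∧
      3 * (e 0 : ℝ) ≤ C := by
  obtain ⟨h1, h2, h3, h4⟩ := hA
  have h01 : (e 0 : ℝ) ≤ e 1 := h1 (by decide)
  have h12 : (e 1 : ℝ) ≤ e 2 := h1 (by decide)
  have hc := Int.le_ceil (2 * C)
  have h2' : (e 0 : ℝ) + e 1 + e 2 ≤ C := h2
  have h3' : -C ≤ (e 0 : ℝ) + e 2 := h3
  have h4' : -C ≤ 2 * (e 1 : ℝ) := h4
  have hC : 0 ≤ C := by linarith
  refine ⟨?_, ?_, ?_, ?_, by linarith⟩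
  · have : ((-⌈2 * C⌉ : ℤ) : ℝ) ≤ ((e 1 : ℤ) : ℝ) := by
      push_cast
      linarith
    exact_mod_cast this
  · have : ((e 1 : ℤ) : ℝ) ≤ ((⌈2 * C⌉ : ℤ) : ℝ) := by linarith
    exact_mod_cast this
  · have : ((-⌈2 * C⌉ : ℤ) : ℝ) ≤ ((e 2 + e 0 : ℤ) : ℝ) := by
      push_cast
      linarith
    exact_mod_cast this
  · have : ((e 2 + e 0 : ℤ) : ℝ) ≤ ((⌈2 * C⌉ : ℤ) : ℝ) := by
      push_cast
      linarith
    exact_mod_cast this

/-- Coordinates. -/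
def co (e : Fin 3 → ℤ) : ℤ × (ℤ × ℤ) := (e 0, (e 1, e 2 + e 0))

theorem co_inj : Function.Injective co := by
  intro e e' h
  have h0 : e 0 = e' 0 := congrArg Prod.fst h
  have h1 : e 1 = e' 1 := congrArg (fun p : ℤ × (ℤ × ℤ) => p.2.1) h
  have h2 : e 2 + e 0 = e' 2 + e' 0 := congrArg (fun p : ℤ × (ℤ × ℤ) => p.2.2) h
  funext i
  fin_cases i
  · exact h0
  · exact h1
  · show e 2 = e' 2
    omega

/-- The box. -/
noncomputable def bxC (C : ℝ) : Finset (ℤ × ℤ) :=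
  Finset.Icc (-⌈2 * C⌉) ⌈2 * C⌉ ×ˢ Finset.Icc (-⌈2 * C⌉) ⌈2 * C⌉

theorem adn_mem {C : ℝ} {e : Fin 3 → ℤ} (hA : Adn C (fun i => (e i : ℝ))) :
    (e 1, e 2 + e 0) ∈ bxC C := by
  obtain ⟨h1, h2, h3, h4, -⟩ := adn_box hA
  exact Finset.mem_product.2 ⟨Finset.mem_Icc.2 ⟨h1, h2⟩, Finset.mem_Icc.2 ⟨h3, h4⟩⟩

theorem geo (n : ℕ) (hn : 1 ≤ n) (S : Finset ℤ) (y : ℝ) (hS : ∀ a ∈ S, (a : ℝ) ≤ y) :
    ∑ a ∈ S, Real.exp (n * a) ≤ 2 * Real.exp (n * y) := by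
  classical
  have h1 : ∀ a ∈ S, Real.exp (n * a) ≤ Real.exp (n * y) * (1 / 2) ^ (⌊y⌋ - a).toNat := by
    intro a ha
    have h2 : a ≤ ⌊y⌋ := Int.le_floor.2 (hS a ha)
    have h3 : (((⌊y⌋ - a).toNat : ℕ) : ℝ) = (⌊y⌋ : ℝ) - a := by
      have : (((⌊y⌋ - a).toNat : ℕ) : ℤ) = ⌊y⌋ - a := Int.toNat_of_nonneg (by omega)
      have h4 : ((((⌊y⌋ - a).toNat : ℕ) : ℤ) : ℝ) = ((⌊y⌋ - a : ℤ) : ℝ) := by rw [this]
      push_cast at h4
      exact_mod_cast h4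
    have h4 : Real.exp (-1) ≤ 1 / 2 := by
      have h5 : (2 : ℝ) ≤ Real.exp 1 := by
        have := Real.add_one_le_exp (1 : ℝ)
        linarith
      rw [Real.exp_neg, ← one_div]
      exact one_div_le_one_div_of_le two_pos h5
    have h5 : Real.exp (-1) ^ (⌊y⌋ - a).toNat ≤ (1 / 2 : ℝ) ^ (⌊y⌋ - a).toNat :=
      pow_le_pow_left₀ (Real.exp_pos _).le h4 _
    refine le_trans ?_ (mul_le_mul_of_nonneg_left h5 (Real.exp_pos _).le)
    rw [← Real.exp_nat_mul, ← Real.exp_add]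
    refine Real.exp_le_exp.2 ?_
    rw [h3]
    have h6 := Int.floor_le y
    have h7 : (1 : ℝ) ≤ n := by exact_mod_cast hn
    have h8 : (a : ℝ) ≤ (⌊y⌋ : ℝ) := by exact_mod_cast h2
    nlinarith
  refine (Finset.sum_le_sum h1).trans ?_
  rw [← Finset.mul_sum, mul_comm]
  refine mul_le_mul_of_nonneg_right ?_ (Real.exp_pos _).le
  have h2 : ∑ a ∈ S, (1 / 2 : ℝ) ^ (⌊y⌋ - a).toNat =
      ∑ k ∈ S.image (fun a => (⌊y⌋ - a).toNat), (1 / 2 : ℝ) ^ k := by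
    rw [Finset.sum_image]
    intro a ha b hb hab
    have h3 : a ≤ ⌊y⌋ := Int.le_floor.2 (hS a ha)
    have h4 : b ≤ ⌊y⌋ := Int.le_floor.2 (hS b hb)
    have hab' : (⌊y⌋ - a).toNat = (⌊y⌋ - b).toNat := hab
    omega
  rw [h2]
  have h3 := summable_geometric_two.sum_le_tsum
    (S.image (fun a => (⌊y⌋ - a).toNat)) (fun _ _ => by positivity)
  rw [tsum_geometric_two] at h3
  exact h3

end H22

open H22 in
/-- NRO: rounding up. -/
theorem nro : NROStmt := by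
  intro K _ _ C x D d f p hC hx hd hs hP
  obtain ⟨⟨p1, p2, p3, p4, p5⟩, q1, q2, q3⟩ := hP
  refine ⟨fun i => ⌈d i⌉, fun i j hij => Int.ceil_le_ceil (hd hij), ?_, ?_⟩
  · have h0 := Int.ceil_lt_add_one (d 0)
    have h1 := Int.ceil_lt_add_one (d 1)
    have h2 := Int.ceil_lt_add_one (d 2)
    linarith
  · intro C' hC'
    have he : ∀ i j, Real.exp (d i + d j) ≤ Real.exp ((⌈d i⌉ : ℝ) + ⌈d j⌉) := fun i j =>
      Real.exp_le_exp.2 (add_le_add (Int.le_ceil _) (Int.le_ceil _))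
    refine ⟨⟨p1, p2, fun i j => bx_mono ?_ (p3 i j), fun i j => bx_mono ?_ (p4 i j), p5⟩,
      q1, q2, q3⟩
    · exact mul_le_mul hC' (he i j) (Real.exp_pos _).le (by linarith)
    · refine mul_le_mul (mul_le_mul_of_nonneg_right hC' (by linarith)) (he i j)
        (Real.exp_pos _).le ?_
      exact mul_nonneg (by linarith) (by linarith)

open H22 in
/-- NSU: the sum over the integral degrees. -/
theorem nsu : NSUStmt := by
  classical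
  intro C n _ hn
  refine ⟨2 * (bxC C).card + 1, by positivity, ?_⟩
  intro A y hA
  have h1 : ∑ e ∈ A, Real.exp (n * e 0) =
      ∑ p ∈ A.image co, Real.exp (n * (p.1 : ℝ)) := by
    rw [Finset.sum_image (fun a _ b _ h => co_inj h)]
    rfl
  have h2 : A.image co ⊆ (A.image fun e => e 0) ×ˢ bxC C := by
    intro p hp
    obtain ⟨e, he, rfl⟩ := Finset.mem_image.1 hp
    exact Finset.mem_product.2 ⟨Finset.mem_image.2 ⟨e, he, rfl⟩, adn_mem (hA e he).1⟩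
  rw [h1]
  refine (Finset.sum_le_sum_of_subset_of_nonneg h2 fun _ _ _ => (Real.exp_pos _).le).trans ?_
  rw [Finset.sum_product]
  simp only [Finset.sum_const, nsmul_eq_mul]
  rw [← Finset.mul_sum]
  have h3 := geo n hn (A.image fun e => e 0) y (by
    intro a ha
    obtain ⟨e, he, rfl⟩ := Finset.mem_image.1 ha
    exact (hA e he).2)
  have h4 : (0 : ℝ) ≤ (bxC C).card := Nat.cast_nonneg _
  have h5 := Real.exp_pos (n * y)
  refine (mul_le_mul_of_nonneg_left h3 h4).trans ?_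
  nlinarith

open H22 in
/-- NFI: finitely many integral degrees. -/
theorem nfi : NFIStmt := by
  classical
  intro C y
  refine Set.Finite.of_finite_image (f := co) ?_ (co_inj.injOn)
  refine Set.Finite.subset
    ((Finset.Icc ⌈y⌉ ⌊C / 3⌋ ×ˢ bxC C : Finset (ℤ × (ℤ × ℤ))) : Set (ℤ × (ℤ × ℤ))).toFinite ?_
  rintro _ ⟨e, ⟨he, hy⟩, rfl⟩
  have h1 := (adn_box he).2.2.2.2
  refine Finset.mem_coe.2 (Finset.mem_product.2 ⟨Finset.mem_Icc.2 ⟨?_, ?_⟩, adn_mem he⟩)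
  · exact Int.ceil_le.2 hy
  · exact Int.le_floor.2 (by
      show (e 0 : ℝ) ≤ C / 3
      linarith)

end Pool.NF
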