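import Pool.Agent.H66.NF.U

/-!
# NF, row CPU: uniqueness of the completion
-/

set_option autoImplicit false

namespace Pool.NF

open Polynomial Matrix NumberField IsDedekindDomain Pool.HYP Pool.TOW Pool.AVS Pool.T1 Pool.PRK

namespace H22C

variable {K L : Type} [Field K] [Field L]

/-- `p` is a uniformizer of `O` in `K`. -/
structure Un (O : ValuationSubring L) (ι : K →+* L) (p : K) : Prop where
  ne : p ≠ 0
  mem : ι p ∈ O
  inv : (ι p)⁻¹ ∉ O
  dvd : ∀ z : L, z ∈ O → z⁻¹ ∉ O → z / ι p ∈ O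

theorem unit_iff {O : ValuationSubring L} (z : O) :
    IsUnit z ↔ (z : L) ≠ 0 ∧ (z : L)⁻¹ ∈ O := by
  constructor
  · rintro ⟨u, rfl⟩
    have h1 : ((u : O) : L) * ((u⁻¹ : Oˣ) : O) = 1 := by
      have : (u : O) * ((u⁻¹ : Oˣ) : O) = 1 := u.mul_inv
      exact congrArg (fun x : O => (x : L)) this
    refine ⟨left_ne_zero_of_mul_eq_one h1, ?_⟩
    rw [inv_eq_of_mul_eq_one_right h1]
    exact (((u⁻¹ : Oˣ) : O)).2
  · rintro ⟨h1, h2⟩
    refine IsUnit.of_mul_eq_one (⟨(z : L)⁻¹, h2⟩ : O) (Subtype.ext ?_)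
    exact mul_inv_cancel₀ h1

theorem max_iff {O : ValuationSubring L} (z : O) :
    z ∈ IsLocalRing.maximalIdeal O ↔ (z : L) = 0 ∨ (z : L)⁻¹ ∉ O := by
  rw [IsLocalRing.mem_maximalIdeal, mem_nonunits_iff, unit_iff, not_and_or, not_not]

variable {O : ValuationSubring L} {ι : K →+* L}

theorem Un.ne' {p : K} (h : Un O ι p) : ι p ≠ 0 := (map_ne_zero ι).2 h.ne

/-- A uniformizer in `K`. -/
theorem exU (h : Cpl K L O ι) : ∃ p : K, Un O ι p := by
  have := h.dvr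
  obtain ⟨π, hπ⟩ := IsDiscreteValuationRing.exists_irreducible O
  have hm := hπ.maximalIdeal_eq
  have hπ0 : (π : L) ≠ 0 := fun h0 => hπ.ne_zero (Subtype.ext h0)
  have hπm : π ∈ IsLocalRing.maximalIdeal O := by
    rw [hm]
    exact Ideal.mem_span_singleton_self π
  obtain ⟨p, hp⟩ := h.dense π ((π : L) ^ 2) (pow_ne_zero 2 hπ0)
  obtain ⟨c, hc⟩ : ∃ c : O, (c : L) = ((π : L) - ι p) / (π : L) ^ 2 := ⟨⟨_, hp⟩, rfl⟩
  have hc' : ι p = (π : L) * (1 - π * c) := by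
    rw [hc]
    field_simp
    ring
  have hu : IsUnit (1 - π * c : O) := by
    by_contra h1
    have h2 : (1 - π * c : O) ∈ IsLocalRing.maximalIdeal O :=
      (IsLocalRing.mem_maximalIdeal _).2 h1
    have h3 : (1 : O) ∈ IsLocalRing.maximalIdeal O := by
      have h4 := Ideal.add_mem _ h2 (Ideal.mul_mem_right c _ hπm)
      rwa [sub_add_cancel] at h4
    exact (Ideal.ne_top_iff_one _).1 (IsLocalRing.maximalIdeal.isMaximal O).ne_top h3
  obtain ⟨hu1, hu2⟩ := (unit_iff _).1 hu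
  have hcast : (((1 - π * c : O) : O) : L) = 1 - (π : L) * c := rfl
  rw [hcast] at hu1 hu2
  have hp0 : ι p ≠ 0 := by
    rw [hc']
    exact mul_ne_zero hπ0 hu1
  refine ⟨p, fun h0 => hp0 (by rw [h0, map_zero]), ?_, ?_, ?_⟩
  · rw [hc']
    exact (π * (1 - π * c)).2
  · intro h1
    have h2 : (π : L)⁻¹ ∈ O := by
      have h3 : (π : L)⁻¹ = (ι p)⁻¹ * (1 - (π : L) * c) := by
        rw [hc', mul_inv, mul_assoc, inv_mul_cancel₀ hu1, mul_one]
      rw [h3]
      exact O.mul_mem _ _ h1 (1 - π * c).2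
    have h3 := (max_iff π).1 hπm
    rcases h3 with h3 | h3
    · exact hπ0 h3
    · exact h3 h2
  · intro z hz hz'
    have h1 : (⟨z, hz⟩ : O) ∈ IsLocalRing.maximalIdeal O := (max_iff _).2 (Or.inr hz')
    rw [hm, Ideal.mem_span_singleton] at h1
    obtain ⟨w, hw⟩ := h1
    have h2 : z = (π : L) * w := congrArg (fun x : O => (x : L)) hw
    have h3 : z / ι p = w * (1 - (π : L) * c)⁻¹ := by
      rw [h2, hc']
      field_simp
    rw [h3]
    exact O.mul_mem _ _ w.2 hu2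

/-- Uniformizers are uniformizers of the other completion. -/
theorem Un.trans {L' : Type} [Field L'] {O' : ValuationSubring L'} {ι' : K →+* L'}
    (h' : Cpl K L' O' ι') (hV : ∀ x : K, ι x ∈ O ↔ ι' x ∈ O') {p : K} (h : Un O ι p) :
    Un O' ι' p := by
  have hp' : ι' p ≠ 0 := (map_ne_zero ι').2 h.ne
  have hinv : ∀ x : K, (ι x)⁻¹ ∈ O ↔ (ι' x)⁻¹ ∈ O' := fun x => by
    rw [← map_inv₀, ← map_inv₀]
    exact hV x⁻¹
  have hpi : (ι' p)⁻¹ ∉ O' := fun h1 => h.inv ((hinv p).2 h1)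
  have hpm : ι' p ∈ O' := (hV p).1 h.mem
  refine ⟨h.ne, hpm, hpi, ?_⟩
  intro z hz hz'
  obtain ⟨x, hx⟩ := h'.dense z (ι' p) hp'
  have h1 : z / ι' p = (z - ι' x) / ι' p + ι' (x / p) := by
    rw [map_div₀, ← add_div, sub_add_cancel]
  rw [h1]
  refine O'.add_mem _ _ hx ((hV _).1 ?_)
  rw [map_div₀]
  have hpM : (⟨ι' p, hpm⟩ : O') ∈ IsLocalRing.maximalIdeal O' := (max_iff _).2 (Or.inr hpi)
  have hxe : ι' x = z - (z - ι' x) / ι' p * ι' p := by
    rw [div_mul_cancel₀ _ hp']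
    ring
  have hxO : ι' x ∈ O' := by
    rw [hxe]
    exact sub_mem hz (O'.mul_mem _ _ hx hpm)
  have hxM : (⟨ι' x, hxO⟩ : O') ∈ IsLocalRing.maximalIdeal O' := by
    have h2 : (⟨ι' x, hxO⟩ : O') = ⟨z, hz⟩ - ⟨_, hx⟩ * ⟨ι' p, hpm⟩ := Subtype.ext hxe
    rw [h2]
    exact Ideal.sub_mem _ ((max_iff _).2 (Or.inr hz')) (Ideal.mul_mem_left _ _ hpM)
  rcases (max_iff _).1 hxM with h2 | h2
  · have h3 : x = 0 := (map_eq_zero ι').1 h2
    rw [h3, map_zero, zero_div]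
    exact O.zero_mem
  · exact h.dvd (ι x) ((hV x).2 hxO) fun h3 => h2 ((hinv x).1 h3)

theorem Un.max {p : K} (h : Un O ι p) :
    IsLocalRing.maximalIdeal O = Ideal.span {(⟨ι p, h.mem⟩ : O)} := by
  apply le_antisymm
  · intro z hz
    rw [Ideal.mem_span_singleton]
    rcases (max_iff z).1 hz with h1 | h1
    · rw [show z = 0 from Subtype.ext h1]
      exact dvd_zero _
    · refine ⟨⟨_, h.dvd z z.2 h1⟩, Subtype.ext ?_⟩
      show (z : L) = ι p * (z / ι p)
      rw [mul_div_cancel₀ _ h.ne']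
  · rw [Ideal.span_singleton_le_iff_mem]
    exact (max_iff _).2 (Or.inr h.inv)

theorem Un.pow {p : K} (h : Un O ι p) (n : ℕ) (z : O) :
    z ∈ IsLocalRing.maximalIdeal O ^ n ↔ (z : L) / ι p ^ n ∈ O := by
  rw [h.max, Ideal.span_singleton_pow, Ideal.mem_span_singleton]
  have hp := pow_ne_zero n h.ne'
  constructor
  · rintro ⟨w, hw⟩
    have h1 : (z : L) = ι p ^ n * w := congrArg (fun x : O => (x : L)) hw
    rw [h1, mul_div_cancel_left₀ _ hp]
    exact w.2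
  · intro h1
    refine ⟨⟨_, h1⟩, Subtype.ext ?_⟩
    show (z : L) = ι p ^ n * (z / ι p ^ n)
    rw [mul_div_cancel₀ _ hp]

theorem Un.haus (hc : Cpl K L O ι) {p : K} (h : Un O ι p) {z : L}
    (hz : ∀ n : ℕ, z / ι p ^ n ∈ O) : z = 0 := by
  have := hc.complete
  have h0 : z ∈ O := by
    have := hz 0
    rwa [pow_zero, div_one] at this
  have h1 : (⟨z, h0⟩ : O) = 0 := by
    refine IsHausdorff.haus' (I := IsLocalRing.maximalIdeal O) (⟨z, h0⟩ : O) fun n => ?_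
    rw [SModEq.zero, smul_eq_mul, Ideal.mul_top]
    exact (h.pow n _).2 (hz n)
  exact congrArg (fun x : O => (x : L)) h1

theorem Un.prec (hc : Cpl K L O ι) {p : K} (h : Un O ι p) (s : ℕ → L) (hs : ∀ n, s n ∈ O)
    (hd : ∀ m n, m ≤ n → (s m - s n) / ι p ^ m ∈ O) :
    ∃ w ∈ O, ∀ n, (s n - w) / ι p ^ n ∈ O := by
  have := hc.complete
  obtain ⟨w, hw⟩ := IsPrecomplete.prec' (I := IsLocalRing.maximalIdeal O)
    (fun n => (⟨s n, hs n⟩ : O)) (fun {m n} hmn => by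
      rw [SModEq.sub_mem, smul_eq_mul, Ideal.mul_top]
      exact (h.pow m _).2 (hd m n hmn))
  refine ⟨w, w.2, fun n => ?_⟩
  have h1 := hw n
  rw [SModEq.sub_mem, smul_eq_mul, Ideal.mul_top] at h1
  exact (h.pow n _).1 h1

theorem Un.bd (hc : Cpl K L O ι) {p : K} (h : Un O ι p) (z : L) :
    ∃ k₀ : ℕ, ∀ k, k₀ ≤ k → z * ι p ^ k ∈ O := by
  have h1 : ∃ k : ℕ, z * ι p ^ k ∈ O := by
    by_contra h1
    push Not at h1
    have hz : z ∉ O := by
      have := h1 0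
      rwa [pow_zero, mul_one] at this
    have h2 : z⁻¹ = 0 := by
      refine h.haus hc fun n => ?_
      rcases O.mem_or_inv_mem (z * ι p ^ n) with h3 | h3
      · exact absurd h3 (h1 n)
      · rwa [mul_inv, ← div_eq_mul_inv] at h3
    rw [inv_eq_zero] at h2
    rw [h2] at hz
    exact hz O.zero_mem
  obtain ⟨k, hk⟩ := h1
  refine ⟨k, fun k' hk' => ?_⟩
  obtain ⟨j, rfl⟩ := Nat.exists_eq_add_of_le hk'
  rw [pow_add, ← mul_assoc]
  exact O.mul_mem _ _ hk (pow_mem h.mem j)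

end H22C

open H22C in
/-- CPU: uniqueness of the completion. -/
theorem cpu : CPUStmt := by
  intro K _ L _ O ι L' _ O' ι' hc hc' hV
  obtain ⟨p, hp⟩ := exU hc
  have hp' : Un O' ι' p := hp.trans hc' hV
  have hp0 := hp.ne'
  have hp0' := hp'.ne'
  have happ : ∀ (z : L) (n : ℕ), ∃ x : K, (z - ι x) / ι p ^ n ∈ O := fun z n =>
    hc.dense z _ (pow_ne_zero n hp0)
  have htr : ∀ (x : K) (n : ℕ), ι x / ι p ^ n ∈ O → ι' x / ι' p ^ n ∈ O' := by
    intro x n h
    have h1 : ι x / ι p ^ n = ι (x / p ^ n) := by rw [map_div₀, map_pow]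
    have h2 : ι' x / ι' p ^ n = ι' (x / p ^ n) := by rw [map_div₀, map_pow]
    rw [h1] at h
    rw [h2]
    exact (hV _).1 h
  have hex : ∀ z : L, ∃ z' : L', ∀ (n : ℕ) (x : K), (z - ι x) / ι p ^ n ∈ O →
      (z' - ι' x) / ι' p ^ n ∈ O' := by
    intro z
    choose x hx using happ z
    have hdn : ∀ m n, m ≤ n → (z - ι (x n)) / ι p ^ m ∈ O := by
      intro m n hmn
      obtain ⟨j, rfl⟩ := Nat.exists_eq_add_of_le hmn
      have h1 : (z - ι (x (m + j))) / ι p ^ m = (z - ι (x (m + j))) / ι p ^ (m + j) * ι p ^ j := by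
        rw [pow_add]
        field_simp
      rw [h1]
      exact O.mul_mem _ _ (hx _) (pow_mem hp.mem j)
    have hdiff : ∀ m n, m ≤ n → (ι' (x m) - ι' (x n)) / ι' p ^ m ∈ O' := by
      intro m n hmn
      rw [← map_sub]
      refine htr _ _ ?_
      have h1 : ι (x m - x n) / ι p ^ m = (z - ι (x n)) / ι p ^ m - (z - ι (x m)) / ι p ^ m := by
        rw [map_sub]
        ring
      rw [h1]
      exact sub_mem (hdn m n hmn) (hdn m m le_rfl)
    obtain ⟨w, hw, hw'⟩ := hp'.prec hc' (fun n => ι' (x n) - ι' (x 0)) (fun n => by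
      have h1 := hdiff 0 n (Nat.zero_le n)
      rw [pow_zero, div_one] at h1
      have h2 := O'.neg_mem _ h1
      rwa [neg_sub] at h2) (fun m n hmn => by
      rw [sub_sub_sub_cancel_right]
      exact hdiff m n hmn)
    refine ⟨w + ι' (x 0), fun n y hy => ?_⟩
    have h1 : (w + ι' (x 0) - ι' y) / ι' p ^ n =
        ι' (x n - y) / ι' p ^ n - (ι' (x n) - ι' (x 0) - w) / ι' p ^ n := by
      rw [map_sub]
      ring
    rw [h1]
    refine sub_mem (htr _ _ ?_) (hw' n)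
    have h2 : ι (x n - y) / ι p ^ n = (z - ι y) / ι p ^ n - (z - ι (x n)) / ι p ^ n := by
      rw [map_sub]
      ring
    rw [h2]
    exact sub_mem hy (hx n)
  choose σ hσ using hex
  have huniq : ∀ (z : L) (z' : L') (N : ℕ), (∀ n, N ≤ n → ∃ x : K, (z - ι x) / ι p ^ n ∈ O ∧
      (z' - ι' x) / ι' p ^ n ∈ O') → σ z = z' := by
    intro z z' N h
    rw [← sub_eq_zero]
    refine hp'.haus hc' fun n => ?_
    obtain ⟨x, hx, hx'⟩ := h (N + n) (Nat.le_add_right N n)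
    have h1 := sub_mem (hσ z (N + n) x hx) hx'
    have h2 : (σ z - z') / ι' p ^ n =
        ((σ z - ι' x) / ι' p ^ (N + n) - (z' - ι' x) / ι' p ^ (N + n)) * ι' p ^ N := by
      rw [pow_add]
      field_simp
      ring
    rw [h2]
    exact O'.mul_mem _ _ h1 (pow_mem hp'.mem N)
  have hι : ∀ x, σ (ι x) = ι' x := fun x => huniq _ _ 0 fun n _ => ⟨x, by
    rw [sub_self, zero_div]
    exact O.zero_mem, by
    rw [sub_self, zero_div]
    exact O'.zero_mem⟩
  have hadd : ∀ z w, σ (z + w) = σ z + σ w := by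
    intro z w
    refine huniq _ _ 0 fun n _ => ?_
    obtain ⟨x, hx⟩ := happ z n
    obtain ⟨y, hy⟩ := happ w n
    refine ⟨x + y, ?_, ?_⟩
    · rw [map_add, add_sub_add_comm, add_div]
      exact O.add_mem _ _ hx hy
    · rw [map_add, add_sub_add_comm, add_div]
      exact O'.add_mem _ _ (hσ _ _ _ hx) (hσ _ _ _ hy)
  have hmul : ∀ z w, σ (z * w) = σ z * σ w := by
    intro z w
    obtain ⟨k1, hk1⟩ := hp.bd hc z
    obtain ⟨k2, hk2⟩ := hp.bd hc w
    obtain ⟨k3, hk3⟩ := hp'.bd hc' (σ z)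
    obtain ⟨k4, hk4⟩ := hp'.bd hc' (σ w)
    obtain ⟨k, hk⟩ : ∃ k, k = k1 + k2 + k3 + k4 := ⟨_, rfl⟩
    have e1 := hk1 k (by omega)
    have e2 := hk2 k (by omega)
    have e3 := hk3 k (by omega)
    have e4 := hk4 k (by omega)
    refine huniq _ _ 0 fun n _ => ?_
    obtain ⟨x, hx⟩ := happ z (n + k)
    obtain ⟨y, hy⟩ := happ w (n + k)
    refine ⟨x * y, ?_, ?_⟩
    · have h1 : (z * w - ι (x * y)) / ι p ^ n =
          (z - ι x) / ι p ^ (n + k) * (w * ι p ^ k) + (z * ι p ^ k) * ((w - ι y) / ι p ^ (n + k)) -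
            (z - ι x) / ι p ^ (n + k) * ((w - ι y) / ι p ^ (n + k) * (ι p ^ (n + k) * ι p ^ k)) := by
        rw [map_mul, pow_add]
        field_simp
        ring
      rw [h1]
      exact sub_mem (O.add_mem _ _ (O.mul_mem _ _ hx e2) (O.mul_mem _ _ e1 hy))
        (O.mul_mem _ _ hx (O.mul_mem _ _ hy (O.mul_mem _ _ (pow_mem hp.mem _)
          (pow_mem hp.mem _))))
    · have hx' := hσ _ _ _ hx
      have hy' := hσ _ _ _ hy
      have h1 : (σ z * σ w - ι' (x * y)) / ι' p ^ n =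
          (σ z - ι' x) / ι' p ^ (n + k) * (σ w * ι' p ^ k) +
            (σ z * ι' p ^ k) * ((σ w - ι' y) / ι' p ^ (n + k)) -
            (σ z - ι' x) / ι' p ^ (n + k) *
              ((σ w - ι' y) / ι' p ^ (n + k) * (ι' p ^ (n + k) * ι' p ^ k)) := by
        rw [map_mul, pow_add]
        field_simp
        ring
      rw [h1]
      exact sub_mem (O'.add_mem _ _ (O'.mul_mem _ _ hx' e4) (O'.mul_mem _ _ e3 hy'))
        (O'.mul_mem _ _ hx' (O'.mul_mem _ _ hy' (O'.mul_mem _ _ (pow_mem hp'.mem _)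
          (pow_mem hp'.mem _))))
  refine ⟨{ toFun := σ, map_one' := ?_, map_mul' := hmul, map_zero' := ?_, map_add' := hadd },
    hι⟩
  · have := hι 1
    rwa [map_one, map_one] at this
  · have := hι 0
    rwa [map_zero, map_zero] at this

end Pool.NF
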