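import Pool.Agent.H66.NF.U

/-!
# NF, row NP2: the product of the local indices
-/

set_option autoImplicit false

namespace Pool.NF

open Polynomial Matrix NumberField IsDedekindDomain Pool.HYP Pool.TOW Pool.AVS Pool.T1 Pool.PRK

namespace H22N

/-- The ideal generated by a nonzero element as a product over the primes which divide it. -/
theorem fac {K : Type} [Field K] [NumberField K] (a : 𝓞 K) (ha : a ≠ 0)
    (A : Finset (HeightOneSpectrum (𝓞 K)))
    (hA : ∀ P : HeightOneSpectrum (𝓞 K), a ∈ P.asIdeal → P ∈ A) :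
    ∃ e : HeightOneSpectrum (𝓞 K) → ℕ, Ideal.span {a} = ∏ P ∈ A, P.asIdeal ^ e P := by
  classical
  have hI : Ideal.span {a} ≠ 0 := by
    rw [Ne, Ideal.zero_eq_bot, Ideal.span_singleton_eq_bot]
    exact ha
  have h := Ideal.finprod_heightOneSpectrum_factorization hI
  refine ⟨fun P => (Associates.mk P.asIdeal).count (Associates.mk (Ideal.span {a})).factors, ?_⟩
  refine h.symm.trans ?_
  apply finprod_eq_prod_of_mulSupport_subset
  intro P hP
  rw [Function.mem_mulSupport] at hP
  apply hA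
  have h1 : (Associates.mk P.asIdeal).count (Associates.mk (Ideal.span {a})).factors ≠ 0 := by
    intro h0
    apply hP
    unfold HeightOneSpectrum.maxPowDividing
    rw [h0, pow_zero]
  have h2 := (Associates.count_ne_zero_iff_dvd hI P.irreducible).1 h1
  exact (Ideal.dvd_iff_le.1 h2) (Ideal.mem_span_singleton_self a)

end H22N

open H22N in
/-- NP2. -/
theorem np2 : NP2Stmt := by
  classical
  intro K _ _ A hA L _ O ι hc hR
  have h20 : (2 : 𝓞 K) ≠ 0 := two_ne_zero
  obtain ⟨e, he⟩ := fac (2 : 𝓞 K) h20 A fun P h => (hA P).2 h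
  have hmem : ∀ P ∈ A, ∀ a : 𝓞 K, ι P (algebraMap (𝓞 K) K a) ∈ O P := fun P hP a =>
    (hR P hP _).2 ⟨1, fun h => P.isPrime.ne_top ((Ideal.eq_top_iff_one _).2 h), a, by
      rw [map_one, one_mul]⟩
  have hcard : ∀ P ∈ A, Nat.card (O P ⧸ Ideal.span {(2 : O P)}) =
      Ideal.absNorm (P.asIdeal ^ e P) := by
    intro P hP
    have h2L : ι P (algebraMap (𝓞 K) K 2) = 2 := by
      rw [map_ofNat, map_ofNat]
    have h2L0 : (2 : L P) ≠ 0 := by
      rw [← h2L]
      exact (map_ne_zero (ι P)).2 ((map_ne_zero_iff _ (IsFractionRing.injective (𝓞 K) K)).2 h20)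
    -- the map
    let φ : 𝓞 K →+* O P := ((ι P).comp (algebraMap (𝓞 K) K)).codRestrict (O P).toSubring
      (hmem P hP)
    have hφ : ∀ a, ((φ a : O P) : L P) = ι P (algebraMap (𝓞 K) K a) := fun a => rfl
    let ψ : 𝓞 K →+* O P ⧸ Ideal.span {(2 : O P)} := (Ideal.Quotient.mk _).comp φ
    -- the complementary ideal
    obtain ⟨J, hJ⟩ : ∃ J : Ideal (𝓞 K), J = ∏ Q ∈ A.erase P, Q.asIdeal ^ e Q := ⟨_, rfl⟩
    have hJ2 : Ideal.span {(2 : 𝓞 K)} = P.asIdeal ^ e P * J := by
      rw [he, hJ, Finset.mul_prod_erase A (fun Q => Q.asIdeal ^ e Q) hP]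
    have hJP : ¬ J ≤ P.asIdeal := by
      intro h
      rw [hJ] at h
      obtain ⟨Q, hQ, hQP⟩ := (Ideal.IsPrime.prod_le P.isPrime).1 h
      have h1 : Q.asIdeal ≤ P.asIdeal := Ideal.IsPrime.le_of_pow_le hQP
      have h2 : Q.asIdeal = P.asIdeal :=
        (Q.isMaximal.eq_of_le P.isPrime.ne_top h1)
      exact (Finset.mem_erase.1 hQ).1 (HeightOneSpectrum.ext h2)
    have hin : ∀ a : 𝓞 K, a ∈ P.asIdeal ^ e P ↔ φ a ∈ Ideal.span {(2 : O P)} := by
      intro a
      rw [Ideal.mem_span_singleton]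
      constructor
      · intro ha
        obtain ⟨m, hm, hmP⟩ := Set.not_subset.1 hJP
        have h1 : a * m ∈ Ideal.span {(2 : 𝓞 K)} := by
          rw [hJ2]
          exact Ideal.mul_mem_mul ha hm
        obtain ⟨b, hb⟩ := Ideal.mem_span_singleton.1 h1
        have h3 : algebraMap (𝓞 K) K a / 2 ∈ RP K P := by
          refine ⟨m, hmP, b, ?_⟩
          have h4 := congrArg (algebraMap (𝓞 K) K) hb
          rw [map_mul, map_mul, map_ofNat] at h4
          have h5 : (2 : K) ≠ 0 := two_ne_zero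
          rw [mul_div_assoc', div_eq_iff h5, mul_comm, h4, mul_comm]
        have h4 := (hR P hP _).2 h3
        refine ⟨⟨_, h4⟩, Subtype.ext ?_⟩
        show ι P (algebraMap (𝓞 K) K a) = 2 * ι P (algebraMap (𝓞 K) K a / 2)
        rw [map_div₀, map_ofNat, mul_div_cancel₀ _ h2L0]
      · rintro ⟨w, hw⟩
        have h1 : ι P (algebraMap (𝓞 K) K a) = 2 * (w : L P) :=
          congrArg (fun x : O P => (x : L P)) hw
        have h3 : algebraMap (𝓞 K) K a / 2 ∈ RP K P := by
          rw [← hR P hP, map_div₀, map_ofNat, h1, mul_div_cancel_left₀ _ h2L0]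
          exact w.2
        obtain ⟨m, hmP, b, hb⟩ := h3
        have h4 : m * a = 2 * b := by
          apply IsFractionRing.injective (𝓞 K) K
          rw [map_mul, map_mul, map_ofNat, ← hb]
          have h5 : (2 : K) ≠ 0 := two_ne_zero
          field_simp
        have h5 : m * a ∈ P.asIdeal ^ e P := by
          rw [h4]
          refine Ideal.mul_mem_right _ _ ?_
          have h6 : (2 : 𝓞 K) ∈ P.asIdeal ^ e P * J := by
            rw [← hJ2]
            exact Ideal.mem_span_singleton_self 2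
          exact (Ideal.mem_inf.1 (Ideal.mul_le_inf h6)).1
        exact (Ideal.IsPrime.mul_mem_pow P.asIdeal h5).resolve_left hmP
    have hker : RingHom.ker ψ = P.asIdeal ^ e P := by
      ext a
      rw [RingHom.mem_ker, hin a]
      exact Ideal.Quotient.eq_zero_iff_mem
    have hsurj : Function.Surjective ψ := by
      intro z
      obtain ⟨z, rfl⟩ := Ideal.Quotient.mk_surjective z
      obtain ⟨x, hx⟩ := (hc P hP).dense z 2 h2L0
      have hxO : ι P x ∈ O P := by
        have h1 : ι P x = z - ((z : L P) - ι P x) / 2 * 2 := by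
          rw [div_mul_cancel₀ _ h2L0]
          ring
        rw [h1]
        refine sub_mem z.2 ((O P).mul_mem _ _ hx ?_)
        rw [← h2L]
        exact hmem P hP 2
      obtain ⟨m, hmP, a, ha⟩ := (hR P hP _).1 hxO
      -- an inverse of m
      have hcop : IsCoprime (Ideal.span {m}) (P.asIdeal ^ e P) := by
        refine IsCoprime.pow_right ?_
        rw [Ideal.isCoprime_iff_exists]
        obtain ⟨y, i, hi, hyi⟩ := Ideal.IsMaximal.exists_inv P.isMaximal hmP
        exact ⟨y * m, Ideal.mul_mem_left _ _ (Ideal.mem_span_singleton_self m), i, hi, hyi⟩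
      obtain ⟨j, hj, k, hk, hjk⟩ := Ideal.isCoprime_iff_exists.1 hcop
      obtain ⟨c, rfl⟩ := Ideal.mem_span_singleton'.1 hj
      refine ⟨a * c, ?_⟩
      show Ideal.Quotient.mk _ (φ (a * c)) = Ideal.Quotient.mk _ z
      rw [Ideal.Quotient.eq]
      obtain ⟨v, hv⟩ := Ideal.mem_span_singleton.1 ((hin k).1 hk)
      rw [Ideal.mem_span_singleton]
      refine ⟨-((⟨ι P x, hxO⟩ : O P) * v) - ⟨_, hx⟩, Subtype.ext ?_⟩
      have h1 : ι P (algebraMap (𝓞 K) K k) = 2 * (v : L P) :=
        congrArg (fun x : O P => (x : L P)) hv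
      have h2 : ι P (algebraMap (𝓞 K) K (a * c)) = ι P x * (1 - 2 * (v : L P)) := by
        have h3 : a * c = a * c := rfl
        rw [map_mul, ← ha, ← h1]
        have h4 : (1 : L P) = ι P (algebraMap (𝓞 K) K (c * m + k)) := by
          rw [hjk, map_one, map_one]
        rw [h4, map_add, map_add, map_mul, map_mul, map_mul, map_mul]
        ring
      show ι P (algebraMap (𝓞 K) K (a * c)) - (z : L P) =
        2 * (-(ι P x * (v : L P)) - ((z : L P) - ι P x) / 2)
      rw [h2]
      field_simp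
      ring
    rw [Ideal.absNorm_apply, Submodule.cardQuot_apply, ← hker]
    exact (Nat.card_congr (RingHom.quotientKerEquivOfSurjective hsurj).toEquiv).symm
  rw [Finset.prod_congr rfl hcard, ← map_prod, ← he, Ideal.absNorm_span_singleton]
  have h1 : (2 : 𝓞 K) = algebraMap ℤ (𝓞 K) 2 := by
    rw [map_ofNat]
  rw [h1, Algebra.norm_algebraMap, RingOfIntegers.rank, Int.natAbs_pow]
  rfl

end Pool.NF
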